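import Pool.Agent.Helper18.SU.Goals2

/-!
Oriented trees in tournaments, part 2: packets BRG and REP.
-/

set_option autoImplicit false

namespace Pool.Agent.Helper81.SU

open Pool.Agent.Helper18.SU

theorem par_ne {W : Type} {r : W} {par : W → W} {dep : W → ℕ} (hR : Rooted r par dep) {v : W}
    (hv : v ≠ r) : par v ≠ v := by
  intro h
  have := hR.2.2 v hv
  rw [h] at this
  omega

open Classical in
theorem BRG (h1 : ROOT_stmt) : BRG_stmt := by
  intro W _ _ D hD r
  obtain ⟨par, dep, hR, hadj, -, -⟩ := h1 W (SimpleGraph.fromRel D) hD.2 r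
  refine ⟨par, dep, fun w => decide (D (par w) w), hR, ?_⟩
  intro x y
  constructor
  · intro hxy
    have hne : x ≠ y := by
      rintro rfl
      exact hD.1 x x hxy hxy
    have ha : (SimpleGraph.fromRel D).Adj x y := by
      rw [SimpleGraph.fromRel_adj]
      exact ⟨hne, Or.inl hxy⟩
    rcases (hadj x y).1 ha with ⟨hx, hp⟩ | ⟨hy, hp⟩
    · right
      refine ⟨hx, hp, ?_⟩
      rw [decide_eq_false_iff_not, hp]
      exact hD.1 x y hxy
    · left
      refine ⟨hy, hp, ?_⟩
      rw [decide_eq_true_eq, hp]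
      exact hxy
  · rintro (⟨hy, hp, hs⟩ | ⟨hx, hp, hs⟩)
    · rw [decide_eq_true_eq, hp] at hs
      exact hs
    · rw [decide_eq_false_iff_not, hp] at hs
      have ha : (SimpleGraph.fromRel D).Adj x y := (hadj x y).2 (Or.inl ⟨hx, hp⟩)
      rw [SimpleGraph.fromRel_adj] at ha
      rcases ha.2 with h | h
      · exact h
      · exact absurd h hs

theorem REP : REP_stmt := by
  intro W V _ _ _ A D r par dep sgn hD hR hRep
  have hpn : ∀ v, v ≠ r → par v ≠ v := fun v hv => par_ne hR hv
  have hdep : ∀ v, v ≠ r → dep (par v) + 1 = dep v := hR.2.2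
  have hirr : ∀ a, ¬ D a a := fun a h => hD a a h h
  -- the parent is a neighbour
  have hnb : ∀ v, v ≠ r → D (par v) v ∨ D v (par v) := by
    intro v hv
    cases hs : sgn v with
    | true => exact Or.inl ((hRep _ _).2 (Or.inl ⟨hv, rfl, hs⟩))
    | false => exact Or.inr ((hRep _ _).2 (Or.inr ⟨hv, rfl, hs⟩))
  -- leaves have no children
  have hOLr : ∀ c, c ∈ OL D r → c ≠ r ∧ par c = r ∧ sgn c = true ∧
      ∀ w, w ≠ r → par w ≠ c := by
    intro c hc
    simp only [OL, Finset.mem_filter, Finset.mem_univ, true_and] at hc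
    obtain ⟨hrc, hn⟩ := hc
    have hcr : c ≠ r := by
      rintro rfl
      exact hirr _ hrc
    rcases (hRep r c).1 hrc with ⟨_, hp, hs⟩ | ⟨hrr, _, _⟩
    · refine ⟨hcr, hp, hs, ?_⟩
      intro w hw hpw
      rcases hnb w hw with h | h
      · rw [hpw] at h
        exact hw (hn w (Or.inr h))
      · rw [hpw] at h
        exact hw (hn w (Or.inl h))
    · exact absurd rfl hrr
  have h3b : ∀ c ∈ chd r par sgn r true, c ∉ OL D r → ∃ w, w ≠ r ∧ par w = c := by
    intro c hc hcl
    simp only [chd, Finset.mem_filter, Finset.mem_univ, true_and] at hc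
    obtain ⟨hcr, hp, hs⟩ := hc
    by_contra hno
    push Not at hno
    apply hcl
    simp only [OL, Finset.mem_filter, Finset.mem_univ, true_and]
    refine ⟨(hRep r c).2 (Or.inl ⟨hcr, hp, hs⟩), ?_⟩
    rintro w (h | h)
    · rcases (hRep w c).1 h with ⟨_, hpc, _⟩ | ⟨hw, hpw, _⟩
      · rw [← hpc, hp]
      · exact absurd hpw (hno w hw)
    · rcases (hRep c w).1 h with ⟨hw, hpw, _⟩ | ⟨_, hpc, _⟩
      · exact absurd hpw (hno w hw)
      · rw [← hpc, hp]
  refine ⟨?_, ?_, ⟨?_, h3b, ?_⟩, ?_, ?_, ?_⟩
  · -- (1)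
    rintro ⟨f, -, hinj, harc⟩
    refine ⟨f, ?_, ?_⟩
    · intro a b hab
      exact hinj a (Finset.mem_univ _) b (Finset.mem_univ _) hab
    · intro a b hab
      rcases (hRep a b).1 hab with ⟨hb, hp, hs⟩ | ⟨ha, hp, hs⟩
      · have := harc b (Finset.mem_univ _) hb (Finset.mem_univ _)
        rw [hs, hp] at this
        exact this
      · have := harc a (Finset.mem_univ _) ha (Finset.mem_univ _)
        rw [hs, hp] at this
        exact this
  · -- (2)
    intro x y
    show D y x ↔ _
    rw [hRep y x]
    constructor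
    · rintro (⟨h1, h2, h3⟩ | ⟨h1, h2, h3⟩)
      · exact Or.inr ⟨h1, h2, by simp [h3]⟩
      · exact Or.inl ⟨h1, h2, by simp [h3]⟩
    · rintro (⟨h1, h2, h3⟩ | ⟨h1, h2, h3⟩)
      · exact Or.inr ⟨h1, h2, by simpa using h3⟩
      · exact Or.inl ⟨h1, h2, by simpa using h3⟩
  · -- (3)
    intro c hc
    obtain ⟨h1, h2, h3, -⟩ := hOLr c hc
    simp only [chd, Finset.mem_filter, Finset.mem_univ, true_and]
    exact ⟨h1, h2, h3⟩
  · refine ⟨?_, ?_, ?_, ?_, ?_⟩
    · intro c hc
      obtain ⟨h1, h2, h3, -⟩ := hOLr c hc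
      exact ⟨h1, h2, h3⟩
    · intro c hc
      simp at hc
    · intro w hw
      refine ⟨fun h => ?_, by simp⟩
      exact (hOLr _ h).2.2.2 w hw rfl
    · intro h
      exact (hOLr _ h).1 rfl
    · simp
  · -- (4)
    intro u h2r h2u
    -- the root has two different neighbours
    obtain ⟨c1, hc1, c2, hc2, h12⟩ := Finset.one_lt_card.1 (by omega : 1 < (OL D r).card)
    obtain ⟨d1, hd1, d2, hd2, hd12⟩ := Finset.one_lt_card.1 (by omega : 1 < (OL (Op D) u).card)
    have hDr : ∀ c ∈ OL D r, D r c := by
      intro c hc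
      simp only [OL, Finset.mem_filter, Finset.mem_univ, true_and] at hc
      exact hc.1
    have hDu : ∀ c ∈ OL (Op D) u, D c u := by
      intro c hc
      simp only [OL, Finset.mem_filter, Finset.mem_univ, true_and] at hc
      exact hc.1
    have key : ∀ c ∈ OL (Op D) u, c ≠ r ∧ par c = u ∧ sgn c = false ∧
        ∀ w, w ≠ r → par w ≠ c := by
      intro c hc
      have hc' := hc
      simp only [OL, Finset.mem_filter, Finset.mem_univ, true_and] at hc
      obtain ⟨hcu, hn⟩ := hc
      have hcu' : D c u := hcu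
      have hn' : ∀ w, D w c ∨ D c w → w = u := by
        intro w hw
        exact hn w hw.symm
      have hcr : c ≠ r := by
        rintro rfl
        have e1 := hn' c1 (Or.inr (hDr c1 hc1))
        have e2 := hn' c2 (Or.inr (hDr c2 hc2))
        exact h12 (e1.trans e2.symm)
      have hpc : par c = u := by
        rcases hnb c hcr with h | h
        · exact hn' _ (Or.inl h)
        · exact hn' _ (Or.inr h)
      have hs : sgn c = false := by
        rcases (hRep c u).1 hcu' with ⟨hu, hpu, _⟩ | ⟨_, _, hs⟩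
        · exfalso
          have e1 := hdep u hu
          have e2 := hdep c hcr
          rw [hpu] at e1
          rw [hpc] at e2
          omega
        · exact hs
      refine ⟨hcr, hpc, hs, ?_⟩
      intro w hw hpw
      have hwu : w = u := by
        rcases hnb w hw with h | h
        · rw [hpw] at h
          exact hn' _ (Or.inr h)
        · rw [hpw] at h
          exact hn' _ (Or.inl h)
      have e1 := hdep w hw
      have e2 := hdep c hcr
      rw [hpw] at e1
      rw [hpc, ← hwu] at e2
      omega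
    refine ⟨⟨?_, ?_, ?_, ?_, ?_⟩, ?_⟩
    · intro c hc
      obtain ⟨h1, h2, h3, -⟩ := hOLr c hc
      exact ⟨h1, h2, h3⟩
    · intro c hc
      obtain ⟨h1, h2, h3, -⟩ := key c hc
      exact ⟨h1, h2, h3⟩
    · intro w hw
      exact ⟨fun h => (hOLr _ h).2.2.2 w hw rfl, fun h => (key _ h).2.2.2 w hw rfl⟩
    · intro h
      simp only [OL, Finset.mem_filter, Finset.mem_univ, true_and] at h
      have e1 := h.2 d1 (Or.inl (hDu d1 hd1))
      have e2 := h.2 d2 (Or.inl (hDu d2 hd2))
      exact hd12 (e1.trans e2.symm)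
    · intro h
      exact hirr _ (hDu u h)
    · intro c hc hcl
      simp only [chd, Finset.mem_filter, Finset.mem_univ, true_and] at hc
      obtain ⟨hcr, hp, hs⟩ := hc
      by_contra hno
      push Not at hno
      apply hcl
      simp only [OL, Finset.mem_filter, Finset.mem_univ, true_and]
      refine ⟨?_, ?_⟩
      · show D c u
        exact (hRep c u).2 (Or.inr ⟨hcr, hp, hs⟩)
      · intro w h
        have h' : D c w ∨ D w c := h
        rcases h' with h | h
        · rcases (hRep c w).1 h with ⟨hw, hpw, _⟩ | ⟨_, hpc, _⟩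
          · exact absurd hpw (hno w hw)
          · rw [← hpc, hp]
        · rcases (hRep w c).1 h with ⟨_, hpc, _⟩ | ⟨hw, hpw, _⟩
          · rw [← hpc, hp]
          · exact absurd hpw (hno w hw)
  · -- (5)
    ext c
    simp only [chd, OD, Finset.mem_filter, Finset.mem_univ, true_and]
    rw [hRep r c]
    constructor
    · intro h
      exact Or.inl h
    · rintro (h | h)
      · exact h
      · exact absurd rfl h.1
  · -- (6)
    intro u hu
    ext c
    simp only [chd, OD, Finset.mem_filter, Finset.mem_univ, true_and]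
    show _ ↔ D c u
    rw [hRep c u]
    constructor
    · intro h
      exact Or.inr h
    · rintro (⟨h1, -, h3⟩ | h)
      · rcases hu with rfl | hu
        · exact absurd rfl h1
        · rw [hu] at h3
          exact absurd h3 (by simp)
      · exact h

end Pool.Agent.Helper81.SU
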